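import Pool.Agent.DPF.StmtsM

/-!
Row FNA of the squad DPF (MP_d97b4e_co): for t at least 3 the star maximizes Lam.
-/

namespace Pool.Agent.DPF.H70

open Finset Pool.Agent.DPS Pool.Agent.DPF

theorem fna (hR : REDStmt) (h1 : N1Stmt) (hM : NMAStmt) (hD : DSCStmt) : FNAStmt := by
  intro n k t r θ ht htk hn A hA hAt T hT
  refine hD n k t r θ (hR t (by omega) ?_) (by omega) htk hn A hA hAt T hT
  intro k' L hk' hL hL2
  rcases Nat.lt_or_ge L (t + 2) with h | h
  · have : L = t + 1 := by omega
    subst this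
    exact h1 k' t (by omega) hk'
  · exact hM k' t L ht h hL2

end Pool.Agent.DPF.H70
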